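import Mathlib

/-! Domination. -/

namespace DFFE

open SimpleGraph

/-- every vertex outside `D` has a neighbour in `D` -/
def Dom {V : Type} (G : SimpleGraph V) (D : Set V) : Prop := ∀ v, v ∉ D → ∃ w ∈ D, G.Adj v w

end DFFE
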