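import Pool.Agent.Lib.MP_dffe52_co.Df.Odd

/-! The conclusion from a connected dominating set and a disjoint robust one. -/

namespace DFFE

open SimpleGraph

theorem connected_of_dom {V : Type} (G : SimpleGraph V) (D W : Set V) (hDW : D ⊆ W)
    (hD : Dom G D) (hc : (G.induce D).Connected) : (G.induce W).Connected := by
  have hin : ∀ (x y : V) (hx : x ∈ D) (hy : y ∈ D),
      (G.induce W).Reachable ⟨x, hDW hx⟩ ⟨y, hDW hy⟩ := by
    intro x y hx hy
    have h := hc.preconnected ⟨x, hx⟩ ⟨y, hy⟩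
    exact h.map (SimpleGraph.Embedding.toHom (SimpleGraph.induceHomOfLE G hDW))
  have hto : ∀ (x : V) (hx : x ∈ W), ∃ (y : V) (hy : y ∈ D),
      (G.induce W).Reachable ⟨x, hx⟩ ⟨y, hDW hy⟩ := by
    intro x hx
    by_cases hxD : x ∈ D
    · exact ⟨x, hxD, Reachable.refl _⟩
    · obtain ⟨w, hw, hadj⟩ := hD x hxD
      refine ⟨w, hw, Adj.reachable ?_⟩
      exact hadj
  have hne : Nonempty W := by
    obtain ⟨z⟩ := hc.nonempty
    exact ⟨⟨z.1, hDW z.2⟩⟩
  refine ⟨?_⟩
  rintro ⟨x, hx⟩ ⟨y, hy⟩
  obtain ⟨x', hx', h1⟩ := hto x hx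
  obtain ⟨y', hy', h2⟩ := hto y hy
  exact h1.trans ((hin x' y' hx' hy').trans h2.symm)

/-- `T` is still a connected dominating set after the deletion of any at most `m` vertices -/
def Rob {V : Type} (G : SimpleGraph V) (T : Set V) (m : ℕ) : Prop :=
  ∀ Y : Finset V, Y.card ≤ m → Dom G (T \ (↑Y : Set V)) ∧ (G.induce (T \ (↑Y : Set V))).Connected

theorem final_of_robust {V : Type} [Fintype V] (G : SimpleGraph V) (k : ℕ) (S T : Set V)
    (hST : Disjoint S T) (hS : Dom G S) (hSc : (G.induce S).Connected) (hT : Rob G T (k + 2))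
    (hodd : ∃ (v : V) (p : G.Walk v v), p.IsCycle ∧ Odd p.length) :
    ∃ (v : V) (p : G.Walk v v), p.IsCycle ∧ Odd p.length ∧
        k < ({x : V | x ∉ p.support}).ncard ∧
        ∀ S : Finset V, S.card < k →
          (G.induce ({x : V | x ∉ p.support} \ (↑S : Set V))).Connected := by
  classical
  obtain ⟨a, b, v, p, hp, ho, hs⟩ := odd_cycle_near G S hSc hS hodd
  have hout : ∀ x ∈ T, x ≠ a → x ≠ b → x ∉ p.support := by
    intro x hx ha hb hxs
    rcases hs x hxs with h | h | h
    · exact Set.disjoint_left.mp hST h hx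
    · exact ha h
    · exact hb h
  refine ⟨v, p, hp, ho, ?_, ?_⟩
  · -- many vertices
    have hcard : k + 2 < T.ncard := by
      by_contra hcon
      have hfin : T.Finite := Set.toFinite _
      have h1 := (hT hfin.toFinset (by
        rw [← Set.ncard_eq_toFinset_card T hfin]
        omega)).2.nonempty
      obtain ⟨⟨z, hz1, hz2⟩⟩ := h1
      exact hz2 (by rw [Finset.mem_coe, Set.Finite.mem_toFinset]; exact hz1)
    have h2 : T \ {a, b} ⊆ {x : V | x ∉ p.support} := by
      rintro x ⟨hx, hxab⟩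
      have h3 : x ≠ a ∧ x ≠ b := by
        constructor
        · rintro rfl; exact hxab (Or.inl rfl)
        · rintro rfl; exact hxab (Or.inr rfl)
      exact hout x hx h3.1 h3.2
    have h3 := Set.ncard_le_ncard h2 (Set.toFinite _)
    have h4 := Set.le_ncard_sdiff ({a, b} : Set V) T (Set.toFinite _)
    have h5 : ({a, b} : Set V).ncard ≤ 2 := by
      have h6 := Set.ncard_insert_le a ({b} : Set V)
      have h7 : ({b} : Set V).ncard = 1 := Set.ncard_singleton b
      omega
    omega
  · intro Z hZ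
    have h1 := hT (insert a (insert b Z)) (by
      have h2 := Finset.card_insert_le a (insert b Z)
      have h3 := Finset.card_insert_le b Z
      omega)
    refine connected_of_dom G (T \ (↑(insert a (insert b Z)) : Set V)) _ ?_ h1.1 h1.2
    rintro x ⟨hx, hxY⟩
    have h4 : x ≠ a ∧ x ≠ b ∧ x ∉ Z := by
      rw [Finset.mem_coe, Finset.mem_insert, Finset.mem_insert] at hxY
      push Not at hxY
      exact hxY
    exact ⟨hout x hx h4.1 h4.2.1, fun h => h4.2.2 (Finset.mem_coe.mp h)⟩

end DFFE
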