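import Pool.Agent.Lib.MP_dffe52_co.Df.Defs

/-! An odd cycle near a connected dominating set. -/

namespace DFFE

open SimpleGraph

/-- an odd closed walk contains an odd cycle -/
theorem odd_cycle_of_walk {V : Type} (G : SimpleGraph V) (u : V) (w : G.Walk u u)
    (hw : Odd w.length) :
    ∃ (v : V) (p : G.Walk v v), p.IsCycle ∧ Odd p.length ∧ ∀ x ∈ p.support, x ∈ w.support := by
  obtain ⟨n, hn⟩ : ∃ n, w.length = n := ⟨_, rfl⟩
  induction n using Nat.strong_induction_on generalizing u with
  | _ n ih =>
    cases w with
    | nil => simp at hw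
    | @cons _ v' _ h q =>
      by_cases hq : q.IsPath
      · refine ⟨u, Walk.cons h q, ?_, hw, fun x hx => hx⟩
        rw [Walk.isCycle_iff_isPath_tail_and_le_length]
        refine ⟨by simpa using hq, ?_⟩
        have h1 : (Walk.cons h q).length ≠ 1 := by
          intro h1
          exact G.loopless.irrefl u (Walk.adj_of_length_eq_one h1)
        obtain ⟨m, hm⟩ := hw
        omega
      · rw [Walk.isPath_iff_isSubwalk_imp_nil] at hq
        push Not at hq
        obtain ⟨x, c, hc, hcn⟩ := hq
        obtain ⟨r1, r2, he⟩ := hc
        have hcl : c.length ≠ 0 := by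
          intro h0
          exact hcn (Walk.length_eq_zero_iff.1 h0)
        have hql : q.length = r1.length + c.length + r2.length := by
          rw [he, Walk.length_append, Walk.length_append]
        have hsup : ∀ y, y ∈ r1.support ∨ y ∈ c.support ∨ y ∈ r2.support → y ∈ q.support := by
          intro y hy
          rw [he, Walk.mem_support_append_iff, Walk.mem_support_append_iff]
          tauto
        rw [Walk.length_cons] at hn hw
        rcases Nat.even_or_odd c.length with hce | hco
        · -- remove the even closed walk
          have hlen : (Walk.cons h (r1.append r2)).length = r1.length + r2.length + 1 := by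
            rw [Walk.length_cons, Walk.length_append]
          have hodd : Odd (Walk.cons h (r1.append r2)).length := by
            rw [hlen]
            rw [hql] at hw
            obtain ⟨m, hm⟩ := hw
            obtain ⟨l, hl⟩ := hce
            exact ⟨m - l, by omega⟩
          obtain ⟨v, p, hp, hpo, hps⟩ := ih _ (by rw [hlen]; omega) u
            (Walk.cons h (r1.append r2)) hodd rfl
          refine ⟨v, p, hp, hpo, fun y hy => ?_⟩
          have h2 := hps y hy
          rw [Walk.support_cons, List.mem_cons, Walk.mem_support_append_iff] at h2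
          rw [Walk.support_cons, List.mem_cons]
          rcases h2 with h2 | h2 | h2
          · exact Or.inl h2
          · exact Or.inr (hsup y (Or.inl h2))
          · exact Or.inr (hsup y (Or.inr (Or.inr h2)))
        · obtain ⟨v, p, hp, hpo, hps⟩ := ih c.length (by omega) x c hco rfl
          refine ⟨v, p, hp, hpo, fun y hy => ?_⟩
          rw [Walk.support_cons, List.mem_cons]
          exact Or.inr (hsup y (Or.inr (Or.inl (hps y hy))))

theorem odd_cycle_near {V : Type} (G : SimpleGraph V) (S : Set V) (hS : (G.induce S).Connected)
    (hD : Dom G S) (hodd : ∃ (v : V) (p : G.Walk v v), p.IsCycle ∧ Odd p.length) :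
    ∃ (a b v : V) (p : G.Walk v v), p.IsCycle ∧ Odd p.length ∧
      ∀ x ∈ p.support, x ∈ S ∨ x = a ∨ x = b := by
  obtain ⟨⟨r, hr⟩⟩ := hS.nonempty
  have hin : ∀ v ∈ S, ∃ W : G.Walk r v, ∀ x ∈ W.support, x ∈ S := by
    intro v hv
    obtain ⟨p⟩ := hS.preconnected ⟨r, hr⟩ ⟨v, hv⟩
    have hsup : ∀ x ∈ (p.map (SimpleGraph.Embedding.induce (G := G) S).toHom).support, x ∈ S := by
      intro x hx
      rw [Walk.support_map, List.mem_map] at hx
      obtain ⟨y, -, rfl⟩ := hx
      exact y.2
    exact ⟨_, hsup⟩
  have hall : ∀ v, ∃ W : G.Walk r v, ∀ x ∈ W.support, x ∈ S ∨ x = v := by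
    intro v
    by_cases hv : v ∈ S
    · obtain ⟨W, hW⟩ := hin v hv
      exact ⟨W, fun x hx => Or.inl (hW x hx)⟩
    · obtain ⟨w, hw, hvw⟩ := hD v hv
      obtain ⟨W, hW⟩ := hin w hw
      refine ⟨W.concat hvw.symm, fun x hx => ?_⟩
      rw [Walk.support_concat, List.mem_append, List.mem_singleton] at hx
      rcases hx with hx | hx
      · exact Or.inl (hW x hx)
      · exact Or.inr hx
  choose W hW using hall
  by_contra hcon
  push Not at hcon
  let c : G.Coloring Bool := Coloring.mk (fun v => decide (Even (W v).length)) (by
    intro a b hab heq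
    rw [decide_eq_decide] at heq
    have hlen : ((W a).append (Walk.cons hab (W b).reverse)).length =
        (W a).length + ((W b).length + 1) := by
      rw [Walk.length_append, Walk.length_cons, Walk.length_reverse]
    have hodd' : Odd ((W a).append (Walk.cons hab (W b).reverse)).length := by
      rw [hlen]
      have : Even ((W a).length + (W b).length) := by
        rw [Nat.even_add]; exact heq
      rw [← add_assoc]
      exact this.add_one
    obtain ⟨v, p, hp, hpo, hps⟩ := odd_cycle_of_walk G r _ hodd'
    obtain ⟨x, hx, h1, h2, h3⟩ := hcon a b v p hp hpo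
    have h4 := hps x hx
    rw [Walk.mem_support_append_iff, Walk.support_cons, List.mem_cons, Walk.support_reverse,
      List.mem_reverse] at h4
    rcases h4 with h4 | h4 | h4
    · rcases hW a x h4 with h | h
      · exact h1 h
      · exact h2 h
    · exact h2 h4
    · rcases hW b x h4 with h | h
      · exact h1 h
      · exact h3 h)
  obtain ⟨v, p, -, hpo⟩ := hodd
  have := (c.odd_length_iff_not_congr p).1 hpo
  tauto

end DFFE
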